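import Pool.Agent.H40.CE.BVN

/-!
# MP_65efe8_pr, row BAS: the base for a concave function
-/

set_option autoImplicit false

open MeasureTheory ProbabilityTheory Filter Topology
open scoped ENNReal
open Pool.Agent.H95 Pool.Agent.H95.Cop Pool.Agent.H96.Cop Pool.Agent.H99.CE

namespace Pool.Agent.H40.CE

lemma lint_shift (ν : Measure ℝ) [IsProbabilityMeasure ν] (t : ℕ) {f : (ℕ → ℝ) → ℝ≥0∞}
    (hf : Measurable f) : ∫⁻ x, f (shift t x) ∂(iid ν) = ∫⁻ x, f x ∂(iid ν) :=
  (measurePreserving_shift ν t).lintegral_comp hf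

/-- Row BAS. -/
theorem pf_BAS (hCCP : T_CCP) (hIND : T_IND) (hBVN : T_BVN) : T_BAS := by
  intro ν _ k n0 J Ne Np g V Vb φ θ u up e1 T0 ω Es qq qu v w hB Nn Ns F hNn hNs hNnV hNsV hF
    hup Sm Su hSm hSu
  obtain ⟨hmono, hmeas, hsub, -, -, hJ⟩ := hCCP φ hB.cc
  have h0 : φ 0 = 0 := hB.cc.1
  have hBV := hBVN ν k n0 J Ne Np g V Vb φ θ u up e1 T0 ω Es qq qu v w hB
  obtain ⟨L, hL⟩ : ∃ L, L = J * n0 := ⟨_, rfl⟩
  rw [← hL] at hBV hSm hSu hF
  have hn0 : 0 < n0 := hB.n1
  have hsbf : ∀ i, sb Vb n0 i ≠ ∞ := fun i =>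
    ENNReal.sum_ne_top.2 fun c _ => hB.Vf _
  let St : ℕ → (ℕ → ℝ) → ℝ≥0∞ := fun i x =>
    ∑ c ∈ Finset.range (min n0 (i + 1)), Ns (i - c) (shift (c * k) x)
  have hSt : ∀ i, Measurable (St i) ∧ DepLt ((i + 1) * k) (St i) := by
    intro i
    refine ⟨Finset.measurable_fun_sum _ fun c _ => (hNs _).1.comp (measurable_shift _), ?_⟩
    intro x x' h
    refine Finset.sum_congr rfl fun c hc => ?_
    rw [Finset.mem_range] at hc
    refine (hNs (i - c)).2 _ _ fun r hr => ?_
    simp only [shift_apply]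
    refine h _ ?_
    have hc1 : c ≤ i := by omega
    have e : (i + 1) * k = (i - c + 1) * k + c * k := by
      rw [← add_mul]
      congr 1
      omega
    omega
  have hStm : ∀ i, ∫⁻ x, St i x ∂(iid ν) ≤ sb Vb n0 i := by
    intro i
    have hm : ∀ c ∈ Finset.range (min n0 (i + 1)),
        Measurable (fun x : ℕ → ℝ => Ns (i - c) (shift (c * k) x)) :=
      fun c _ => (hNs _).1.comp (measurable_shift _)
    simp only [St]
    rw [lintegral_finsetSum _ hm]
    unfold sb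
    refine Finset.sum_le_sum fun c _ => ?_
    rw [lint_shift ν (c * k) (hNs _).1]
    exact hNsV _
  have hj : ∀ j ∈ Finset.range J, ∫⁻ x, φ (F j x) ∂(iid ν) ≤
      φ (∑ c ∈ Finset.range n0, eT Vb (TT n0 j) c) + ∑ i ∈ Finset.range L,
        ∑ D ∈ Finset.Icc 1 (L - 1 - i), ∫⁻ x, (∫⁻ y,
          φ ((1 * (sb Vb n0 i * g D * ex 0 ((D - 1) * k) x)) * V j (i + D) y) ∂(iid ν))
            ∂(iid ν) := by
    intro j hj
    rw [Finset.mem_range] at hj
    have hch := hB.ch j hj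
    have hAm0 : ∀ c c' : ℕ, Measurable (fun x : ℕ → ℝ =>
        if c ≤ c' then Nn (c' - c) (shift (c * k) x) else 0) := by
      intro c c'
      by_cases hc : c ≤ c'
      · simp only [hc, if_true]
        exact (hNn _).comp (measurable_shift _)
      · simp only [hc, if_false]
        exact measurable_const
    have hAm : Measurable (fun x => ∑ c ∈ Finset.range n0, ∑ c' ∈ TT n0 j,
        if c ≤ c' then Nn (c' - c) (shift (c * k) x) else 0) :=
      Finset.measurable_fun_sum _ fun c _ => Finset.measurable_fun_sum _ fun c' _ => hAm0 c c'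
    have h := one_term hIND ν h0 hmono hmeas hsub (hJ (iid ν)) (k := k) 1 g (F j)
      (fun x => ∑ c ∈ Finset.range n0, ∑ c' ∈ TT n0 j,
        if c ≤ c' then Nn (c' - c) (shift (c * k) x) else 0) St (sb Vb n0) (V j)
      (Finset.range L) (fun i => Finset.Icc 1 (L - 1 - i)) 0
      (fun i D hD => (Finset.mem_Icc.1 hD).1) hAm hSt hStm hch.mV
      (eA := ∑ c ∈ Finset.range n0, eT Vb (TT n0 j) c) ?_ ?_
    · simp only [one_mul, zero_add] at h ⊢
      exact h
    · rw [lintegral_finsetSum _ fun c _ => Finset.measurable_fun_sum _ fun c' _ => hAm0 c c']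
      refine Finset.sum_le_sum fun c _ => ?_
      rw [lintegral_finsetSum _ fun c' _ => hAm0 c c']
      unfold eT
      refine Finset.sum_le_sum fun c' _ => ?_
      by_cases hc : c ≤ c'
      · simp only [hc, if_true]
        rw [lint_shift ν (c * k) (hNn _)]
        exact hNnV _
      · simp only [hc, if_false, lintegral_zero]
        exact le_rfl
    · intro x
      simp only [zero_add]
      exact hF j hj x
  have h1 : ∑ j ∈ Finset.range J, ω j * ∫⁻ x, φ (F j x) ∂(iid ν) ≤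
      (∑ j ∈ Finset.range J, ω j * φ (∑ c ∈ Finset.range n0, eT Vb (TT n0 j) c)) +
      ∑ i ∈ Finset.range L, ∑ D ∈ Finset.Icc 1 (L - 1 - i),
        ∑ j ∈ Finset.range J, ω j * ∫⁻ x, (∫⁻ y,
          φ ((1 * (sb Vb n0 i * g D * ex 0 ((D - 1) * k) x)) * V j (i + D) y) ∂(iid ν))
            ∂(iid ν) := by
    refine (Finset.sum_le_sum fun j hj' => mul_le_mul' le_rfl (hj j hj')).trans (le_of_eq ?_)
    simp only [mul_add, Finset.sum_add_distrib, Finset.mul_sum]
    congr 1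
    rw [Finset.sum_comm]
    refine Finset.sum_congr rfl fun i _ => ?_
    rw [Finset.sum_comm]
  refine h1.trans (add_le_add le_rfl ?_)
  have h3 : ∀ i ∈ Finset.range L, ∀ D ∈ Finset.Icc 1 (L - 1 - i),
      ∑ j ∈ Finset.range J, ω j * ∫⁻ x, (∫⁻ y,
          φ ((1 * (sb Vb n0 i * g D * ex 0 ((D - 1) * k) x)) * V j (i + D) y) ∂(iid ν))
            ∂(iid ν) ≤
      ω ((i + D) / n0) * ((sb Vb n0 i * g D) ^ θ *
          ∫⁻ x, ex 0 ((D - 1) * k) x ^ θ * up (ex 0 ((D - 1) * k) x) ∂(iid ν)) * v +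
        ω ((i + D) / n0) * ((sb Vb n0 i * g D) ^ θ *
          ∫⁻ x, ex 0 ((D - 1) * k) x ^ θ ∂(iid ν)) * w := by
    intro i hi D hD
    rw [Finset.mem_range] at hi
    rw [Finset.mem_Icc] at hD
    have hc := comb ν hB hmeas (p0 := 0) (p' := i + D) (Nat.zero_le _)
      (hBV (i + D) (by omega)) (m := sb Vb n0 i * g D)
      (ENNReal.mul_ne_top (hsbf i) (hB.gf D)) (Wb := ω ((i + D) / n0)) le_rfl
      ((D - 1) * k) ENNReal.one_ne_top (uz := 0) (fun y hy => by
        rw [one_mul, zero_add]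
        exact hup i D y hy)
    simp only [Nat.Ico_zero_eq_range, Nat.sub_zero] at hc
    refine hc.trans (le_of_eq ?_)
    rw [ENNReal.one_rpow]
    ring
  refine (Finset.sum_le_sum fun i hi => Finset.sum_le_sum fun D hD => h3 i hi D hD).trans ?_
  simp only [Finset.sum_add_distrib, ← Finset.sum_mul]
  refine add_le_add (mul_le_mul' ?_ le_rfl) (mul_le_mul' ?_ le_rfl)
  · refine le_trans ?_ hSu
    have := dsum L 0 (fun i D => ω ((i + D) / n0) * ((sb Vb n0 i * g D) ^ θ *
          ∫⁻ x, ex 0 ((D - 1) * k) x ^ θ * up (ex 0 ((D - 1) * k) x) ∂(iid ν)))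
    simpa only [Nat.sub_zero] using this
  · refine le_trans ?_ hSm
    have := dsum L 0 (fun i D => ω ((i + D) / n0) * ((sb Vb n0 i * g D) ^ θ *
          ∫⁻ x, ex 0 ((D - 1) * k) x ^ θ ∂(iid ν)))
    simpa only [Nat.sub_zero] using this

end Pool.Agent.H40.CE
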