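import Pool.Agent.H99.CE.Targets

/-!
# MP_65efe8_pr, row BVN: the induction over the cells
-/

set_option autoImplicit false

open MeasureTheory ProbabilityTheory Filter Topology
open scoped ENNReal
open Pool.Agent.H95 Pool.Agent.H95.Cop Pool.Agent.H96.Cop Pool.Agent.H99.CE

namespace Pool.Agent.H40.CE

lemma sub_sum {φ : ℝ≥0∞ → ℝ≥0∞} (h0 : φ 0 = 0) (hs : ∀ x y, φ (x + y) ≤ φ x + φ y)
    {ι : Type*} (s : Finset ι) (f : ι → ℝ≥0∞) : φ (∑ i ∈ s, f i) ≤ ∑ i ∈ s, φ (f i) := by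
  classical
  induction s using Finset.induction_on with
  | empty => simp [h0]
  | insert i s hi ih =>
    rw [Finset.sum_insert hi, Finset.sum_insert hi]
    exact (hs _ _).trans (add_le_add le_rfl ih)

/-- One long excursion is split off. -/
lemma step (hIND : T_IND) (ν : Measure ℝ) [IsProbabilityMeasure ν] {φ : ℝ≥0∞ → ℝ≥0∞}
    (hmono : Monotone φ) (hmeas : Measurable φ)
    (hJ : ∀ (f : (ℕ → ℝ) → ℝ≥0∞), Measurable f →
      ∀ A B : ℝ≥0∞, ∫⁻ x, φ (A + B * f x) ∂(iid ν) ≤ φ (A + B * ∫⁻ x, f x ∂(iid ν)))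
    {k i D : ℕ} (hD : 1 ≤ D) {f : (ℕ → ℝ) → ℝ≥0∞} (hf : Measurable f)
    (hd : DepLt ((i + 1) * k) f) {m : ℝ≥0∞} (hm : ∫⁻ x, f x ∂(iid ν) ≤ m) (z g : ℝ≥0∞)
    {V : (ℕ → ℝ) → ℝ≥0∞} (hV : Measurable V) :
    ∫⁻ x, φ (z * (f x * (g * ex ((i + 1) * k) ((i + D) * k) x *
      V (shift ((i + D) * k) x)))) ∂(iid ν) ≤
    ∫⁻ x, (∫⁻ y, φ ((z * (m * g * ex 0 ((D - 1) * k) x)) * V y) ∂(iid ν)) ∂(iid ν) := by
  have hk : (i + D) * k = (D - 1) * k + (i + 1) * k := by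
    rw [← add_mul]
    congr 1
    omega
  let E : (ℕ → ℝ) → ℝ≥0∞ := ex 0 ((D - 1) * k)
  have hE : Measurable E := measurable_ex _ _
  have e1 : ∀ x : ℕ → ℝ, ex ((i + 1) * k) ((i + D) * k) x = E (shift ((i + 1) * k) x) := by
    intro x
    show _ = ex 0 ((D - 1) * k) (shift ((i + 1) * k) x)
    rw [ex_shift, zero_add, ← hk]
  have e2 : ∀ x : ℕ → ℝ, shift ((i + D) * k) x = shift ((D - 1) * k) (shift ((i + 1) * k) x) := by
    intro x
    rw [shift_shift, ← hk]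
  simp only [e1, e2]
  have hg : Measurable (fun y : ℕ → ℝ => g * E y * V (shift ((D - 1) * k) y)) :=
    (measurable_const.mul hE).mul (hV.comp (measurable_shift _))
  have h1 := (hIND ν ((i + 1) * k) f
    (fun q => φ (z * (q.1 * (g * E q.2 * V (shift ((D - 1) * k) q.2))))) hf hd
    (hmeas.comp (measurable_const.mul (measurable_fst.mul (hg.comp measurable_snd))))).2
  simp only at h1
  rw [h1]
  have h2 : ∀ y : ℕ → ℝ, ∫⁻ x, φ (z * (f x * (g * E y * V (shift ((D - 1) * k) y)))) ∂(iid ν) ≤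
      φ (z * (m * (g * E y * V (shift ((D - 1) * k) y)))) := by
    intro y
    have h3 := hJ f hf 0 (z * (g * E y * V (shift ((D - 1) * k) y)))
    simp only [zero_add] at h3
    calc ∫⁻ x, φ (z * (f x * (g * E y * V (shift ((D - 1) * k) y)))) ∂(iid ν)
        = ∫⁻ x, φ (z * (g * E y * V (shift ((D - 1) * k) y)) * f x) ∂(iid ν) := by
          refine lintegral_congr fun x => ?_
          congr 1
          ring
      _ ≤ _ := h3
      _ ≤ φ (z * (m * (g * E y * V (shift ((D - 1) * k) y)))) := by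
          refine hmono ?_
          calc z * (g * E y * V (shift ((D - 1) * k) y)) * ∫⁻ x, f x ∂(iid ν)
              ≤ z * (g * E y * V (shift ((D - 1) * k) y)) * m := mul_le_mul' le_rfl hm
            _ = _ := by ring
  refine (lintegral_mono h2).trans (le_of_eq ?_)
  have h4 := (hIND ν ((D - 1) * k) E
    (fun q => φ (z * (m * g * q.1) * V q.2)) hE (ex_dep _ _)
    (hmeas.comp ((measurable_const.mul (measurable_const.mul measurable_fst)).mul
      (hV.comp measurable_snd)))).1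
  simp only at h4
  rw [← h4]
  refine lintegral_congr fun y => ?_
  congr 1
  ring

/-- The sum over the boxes. -/
lemma comb (ν : Measure ℝ) [IsProbabilityMeasure ν] {k n0 J : ℕ}
    {Ne Np : ℕ → (ℕ → ℝ) → ℝ≥0∞} {g : ℕ → ℝ≥0∞} {V : ℕ → ℕ → (ℕ → ℝ) → ℝ≥0∞}
    {Vb : ℕ → ℝ≥0∞} {φ : ℝ≥0∞ → ℝ≥0∞} {θ : ℝ} {u up : ℝ≥0∞ → ℝ≥0∞} {e1 T0 : ℝ≥0∞}
    {ω : ℕ → ℝ≥0∞} {Es qq qu v w : ℝ≥0∞}
    (hB : BH ν k n0 J Ne Np g V Vb φ θ u up e1 T0 ω Es qq qu v w) (hmeas : Measurable φ)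
    {p0 p' : ℕ} (hp0 : p0 ≤ p' / n0)
    (IH : ∀ z, z ≠ ∞ → ∑ j ∈ Finset.Ico (p' / n0) J,
      ω (j - p' / n0) * ∫⁻ x, φ (z * V j p' x) ∂(iid ν) ≤ z ^ θ * (u z * v + w))
    {m : ℝ≥0∞} (hm : m ≠ ∞) {Wb : ℝ≥0∞} (hW : ω (p' / n0 - p0) ≤ Wb) (N : ℕ) {z : ℝ≥0∞}
    (hz : z ≠ ∞) {uz : ℝ≥0∞} (hu : ∀ y, y ≠ ∞ → u (z * (m * y)) ≤ uz + up y) :
    ∑ j ∈ Finset.Ico p0 J, ω (j - p0) *
      ∫⁻ x, (∫⁻ y, φ ((z * (m * ex 0 N x)) * V j p' y) ∂(iid ν)) ∂(iid ν) ≤
    Wb * (z ^ θ * (m ^ θ * ((∫⁻ x, ex 0 N x ^ θ ∂(iid ν)) * (uz * v + w) +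
      (∫⁻ x, ex 0 N x ^ θ * up (ex 0 N x) ∂(iid ν)) * v))) := by
  have h0 : φ 0 = 0 := hB.cc.1
  have hVm : ∀ j < J, Measurable (V j p') := fun j hj => (hB.ch j hj).mV p'
  have hin : ∀ j < J, Measurable (fun x : ℕ → ℝ =>
      ∫⁻ y, φ ((z * (m * ex 0 N x)) * V j p' y) ∂(iid ν)) := by
    intro j hj
    have h1 : Measurable (fun q : (ℕ → ℝ) × (ℕ → ℝ) =>
        φ ((z * (m * ex 0 N q.1)) * V j p' q.2)) :=
      hmeas.comp ((measurable_const.mul (measurable_const.mul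
        ((measurable_ex 0 N).comp measurable_fst))).mul ((hVm j hj).comp measurable_snd))
    exact h1.lintegral_prod_right'
  have hswap : ∑ j ∈ Finset.Ico p0 J, ω (j - p0) *
      ∫⁻ x, (∫⁻ y, φ ((z * (m * ex 0 N x)) * V j p' y) ∂(iid ν)) ∂(iid ν) =
      ∫⁻ x, ∑ j ∈ Finset.Ico p0 J, ω (j - p0) *
        ∫⁻ y, φ ((z * (m * ex 0 N x)) * V j p' y) ∂(iid ν) ∂(iid ν) := by
    rw [lintegral_finsetSum' _ fun j hj =>
      ((hin j (Finset.mem_Ico.1 hj).2).const_mul _).aemeasurable]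
    refine Finset.sum_congr rfl fun j hj => ?_
    rw [lintegral_const_mul _ (hin j (Finset.mem_Ico.1 hj).2)]
  rw [hswap]
  have hpt : ∀ x : ℕ → ℝ, ∑ j ∈ Finset.Ico p0 J, ω (j - p0) *
      ∫⁻ y, φ ((z * (m * ex 0 N x)) * V j p' y) ∂(iid ν) ≤
      Wb * (z ^ θ * (m ^ θ * (ex 0 N x ^ θ * (uz * v + w) +
        (ex 0 N x ^ θ * up (ex 0 N x)) * v))) := by
    intro x
    have hy : ex 0 N x ≠ ∞ := ENNReal.ofReal_ne_top
    set y := ex 0 N x with hydef
    have hz' : z * (m * y) ≠ ∞ := ENNReal.mul_ne_top hz (ENNReal.mul_ne_top hm hy)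
    have h1 : ∀ j ∈ Finset.Ico p0 J, ω (j - p0) *
        ∫⁻ q, φ ((z * (m * y)) * V j p' q) ∂(iid ν) ≤
        (if p' / n0 ≤ j then Wb * (ω (j - p' / n0) *
          ∫⁻ q, φ ((z * (m * y)) * V j p' q) ∂(iid ν)) else 0) := by
      intro j hj
      rw [Finset.mem_Ico] at hj
      by_cases hjp : p' / n0 ≤ j
      · rw [if_pos hjp, ← mul_assoc Wb]
        refine mul_le_mul' ?_ le_rfl
        have e2 : j - p0 = (p' / n0 - p0) + (j - p' / n0) := by omega
        rw [e2]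
        exact (hB.ωs _ _).trans (mul_le_mul' hW le_rfl)
      · rw [if_neg hjp]
        have hzero : ∀ q, V j p' q = 0 := by
          intro q
          refine (hB.ch j hj.2).zero p' q fun c hc => ?_
          unfold TT at hc
          rw [Finset.mem_Ico] at hc
          have h2 : (j + 1) * n0 ≤ (p' / n0) * n0 := Nat.mul_le_mul_right _ (by omega)
          have h3 : (p' / n0) * n0 ≤ p' := Nat.div_mul_le_self p' n0
          omega
        simp only [hzero, mul_zero, h0, lintegral_zero]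
        exact le_rfl
    refine (Finset.sum_le_sum h1).trans ?_
    rw [← Finset.sum_filter]
    have h2 : (Finset.Ico p0 J).filter (fun j => p' / n0 ≤ j) = Finset.Ico (p' / n0) J := by
      ext j
      simp only [Finset.mem_filter, Finset.mem_Ico]
      omega
    rw [h2, ← Finset.mul_sum]
    refine mul_le_mul' le_rfl ((IH _ hz').trans ?_)
    rw [ENNReal.mul_rpow_of_nonneg _ _ hB.θ0.le, ENNReal.mul_rpow_of_nonneg _ _ hB.θ0.le,
      mul_assoc, mul_assoc]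
    refine mul_le_mul' le_rfl (mul_le_mul' le_rfl ?_)
    calc y ^ θ * (u (z * (m * y)) * v + w) ≤ y ^ θ * ((uz + up y) * v + w) :=
          mul_le_mul' le_rfl (add_le_add (mul_le_mul' (hu y hy) le_rfl) le_rfl)
      _ = _ := by ring
  refine (lintegral_mono hpt).trans (le_of_eq ?_)
  have hme : Measurable (fun x : ℕ → ℝ => ex 0 N x ^ θ) := (measurable_ex 0 N).pow_const _
  have hme2 : Measurable (fun x : ℕ → ℝ => ex 0 N x ^ θ * up (ex 0 N x)) :=
    hme.mul (hB.mup.comp (measurable_ex 0 N))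
  have hm1 : Measurable (fun x : ℕ → ℝ => ex 0 N x ^ θ * (uz * v + w) +
      (ex 0 N x ^ θ * up (ex 0 N x)) * v) := (hme.mul_const _).add (hme2.mul_const _)
  rw [lintegral_const_mul _ ((hm1.const_mul _).const_mul _),
    lintegral_const_mul _ (hm1.const_mul _), lintegral_const_mul _ hm1,
    lintegral_add_left (hme.mul_const _), lintegral_mul_const _ hme,
    lintegral_mul_const _ hme2]

lemma dsum (L p : ℕ) (a : ℕ → ℕ → ℝ≥0∞) :
    ∑ i ∈ Finset.range (L - p), ∑ D ∈ Finset.Icc 1 (L - 1 - p - i), a i D ≤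
      ∑ i ∈ Finset.range L, ∑ D ∈ Finset.Icc 1 L, a i D := by
  refine (Finset.sum_le_sum fun i _ => ?_).trans
    (Finset.sum_le_sum_of_subset (Finset.range_mono (Nat.sub_le L p)))
  refine Finset.sum_le_sum_of_subset (Finset.Icc_subset_Icc le_rfl ?_)
  omega

/-- The integral of one term. -/
lemma one_term (hIND : T_IND) (ν : Measure ℝ) [IsProbabilityMeasure ν] {φ : ℝ≥0∞ → ℝ≥0∞}
    (h0 : φ 0 = 0) (hmono : Monotone φ) (hmeas : Measurable φ)
    (hsub : ∀ x y, φ (x + y) ≤ φ x + φ y)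
    (hJ : ∀ (f : (ℕ → ℝ) → ℝ≥0∞), Measurable f →
      ∀ A B : ℝ≥0∞, ∫⁻ x, φ (A + B * f x) ∂(iid ν) ≤ φ (A + B * ∫⁻ x, f x ∂(iid ν)))
    {k : ℕ} (z : ℝ≥0∞) (g : ℕ → ℝ≥0∞) (F A : (ℕ → ℝ) → ℝ≥0∞) (f : ℕ → (ℕ → ℝ) → ℝ≥0∞)
    (m : ℕ → ℝ≥0∞) (V : ℕ → (ℕ → ℝ) → ℝ≥0∞) (S : Finset ℕ) (R : ℕ → Finset ℕ) (q : ℕ)
    (hR : ∀ i, ∀ D ∈ R i, 1 ≤ D) (hA : Measurable A)
    (hf : ∀ i, Measurable (f i) ∧ DepLt ((i + 1) * k) (f i))
    (hm : ∀ i, ∫⁻ x, f i x ∂(iid ν) ≤ m i) (hV : ∀ p, Measurable (V p)) {eA : ℝ≥0∞}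
    (heA : ∫⁻ x, A x ∂(iid ν) ≤ eA)
    (hF : ∀ x, F x ≤ A x + ∑ i ∈ S, ∑ D ∈ R i, f i x *
      (g D * ex ((i + 1) * k) ((i + D) * k) x * V (q + i + D) (shift ((i + D) * k) x))) :
    ∫⁻ x, φ (z * F x) ∂(iid ν) ≤ φ (z * eA) + ∑ i ∈ S, ∑ D ∈ R i,
      ∫⁻ x, (∫⁻ y, φ ((z * (m i * g D * ex 0 ((D - 1) * k) x)) * V (q + i + D) y) ∂(iid ν))
        ∂(iid ν) := by
  have hpt : ∀ x, φ (z * F x) ≤ φ (z * A x) + ∑ i ∈ S, ∑ D ∈ R i, φ (z * (f i x *
      (g D * ex ((i + 1) * k) ((i + D) * k) x * V (q + i + D) (shift ((i + D) * k) x)))) := by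
    intro x
    refine (hmono (mul_le_mul' le_rfl (hF x))).trans ?_
    rw [mul_add]
    refine (hsub _ _).trans (add_le_add le_rfl ?_)
    rw [Finset.mul_sum]
    refine (sub_sum h0 hsub _ _).trans (Finset.sum_le_sum fun i _ => ?_)
    rw [Finset.mul_sum]
    exact sub_sum h0 hsub _ _
  refine (lintegral_mono hpt).trans ?_
  have hmt : ∀ i D, Measurable (fun x => φ (z * (f i x *
      (g D * ex ((i + 1) * k) ((i + D) * k) x * V (q + i + D) (shift ((i + D) * k) x))))) := by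
    intro i D
    exact hmeas.comp (measurable_const.mul ((hf i).1.mul ((measurable_const.mul
      (measurable_ex _ _)).mul ((hV _).comp (measurable_shift _)))))
  have hφA : Measurable (fun x => φ (z * A x)) := hmeas.comp (measurable_const.mul hA)
  rw [lintegral_add_left hφA, lintegral_finsetSum _ fun i _ => Finset.measurable_fun_sum _ fun D _ => hmt i D]
  refine add_le_add ?_ (Finset.sum_le_sum fun i _ => ?_)
  · have h1 := hJ A hA 0 z
    simp only [zero_add] at h1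
    exact h1.trans (hmono (mul_le_mul' le_rfl heA))
  · rw [lintegral_finsetSum _ fun D _ => hmt i D]
    refine Finset.sum_le_sum fun D hD => ?_
    exact step hIND ν hmono hmeas hJ (hR i D hD) (hf i).1 (hf i).2 (hm i) z (g D) (hV _)

/-- Row BVN. -/
theorem pf_BVN (hCCP : T_CCP) (hIND : T_IND) : T_BVN := by
  intro ν _ k n0 J Ne Np g V Vb φ θ u up e1 T0 ω Es qq qu v w hB
  obtain ⟨hmono, hmeas, hsub, -, -, hJ⟩ := hCCP φ hB.cc
  have h0 : φ 0 = 0 := hB.cc.1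
  obtain ⟨L, hL⟩ : ∃ L, L = J * n0 := ⟨_, rfl⟩
  rw [← hL]
  have hn0 : 0 < n0 := hB.n1
  suffices H : ∀ n p, p < L → L - p = n → ∀ z, z ≠ ∞ → ∑ j ∈ Finset.Ico (p / n0) J,
      ω (j - p / n0) * ∫⁻ x, φ (z * V j p x) ∂(iid ν) ≤ z ^ θ * (u z * v + w) by
    intro p hp z hz
    exact H _ p hp rfl z hz
  intro n
  induction n using Nat.strong_induction_on with
  | _ n ih =>
  intro p hp hn z hz
  have IH : ∀ p', p < p' → p' < L → ∀ z, z ≠ ∞ → ∑ j ∈ Finset.Ico (p' / n0) J,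
      ω (j - p' / n0) * ∫⁻ x, φ (z * V j p' x) ∂(iid ν) ≤ z ^ θ * (u z * v + w) :=
    fun p' h1 h2 z hz => ih (L - p') (by omega) p' h2 rfl z hz
  have hj : ∀ j ∈ Finset.Ico (p / n0) J, ∫⁻ x, φ (z * V j p x) ∂(iid ν) ≤
      φ (z * eT Vb (TT n0 j) p) + ∑ i ∈ Finset.range (L - p),
        ∑ D ∈ Finset.Icc 1 (L - 1 - p - i), ∫⁻ x, (∫⁻ y,
          φ ((z * (Vb i * g D * ex 0 ((D - 1) * k) x)) * V j (p + i + D) y) ∂(iid ν))
            ∂(iid ν) := by
    intro j hj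
    rw [Finset.mem_Ico] at hj
    have hch := hB.ch j hj.2
    rw [← hL] at hch
    have hAm : Measurable (fun x => ∑ c ∈ TT n0 j, if p ≤ c then Ne (c - p) x else 0) := by
      refine Finset.measurable_fun_sum _ fun c _ => ?_
      by_cases hc : p ≤ c
      · simp only [hc, if_true]
        exact hch.mNe _
      · simp only [hc, if_false]
        exact measurable_const
    refine one_term hIND ν h0 hmono hmeas hsub (hJ (iid ν)) z g (V j p)
      (fun x => ∑ c ∈ TT n0 j, if p ≤ c then Ne (c - p) x else 0) Np Vb (V j)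
      (Finset.range (L - p)) (fun i => Finset.Icc 1 (L - 1 - p - i)) p
      (fun i D hD => (Finset.mem_Icc.1 hD).1) hAm hch.mNp hB.np hch.mV ?_ (hch.recV p hp)
    rw [lintegral_finsetSum _ fun c _ => ?_]
    · unfold eT
      refine Finset.sum_le_sum fun c _ => ?_
      by_cases hc : p ≤ c
      · simp only [hc, if_true]
        exact hB.ne _
      · simp only [hc, if_false, lintegral_zero]
        exact le_rfl
    · by_cases hc : p ≤ c
      · simp only [hc, if_true]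
        exact hch.mNe _
      · simp only [hc, if_false]
        exact measurable_const
  have h1 : ∑ j ∈ Finset.Ico (p / n0) J, ω (j - p / n0) * ∫⁻ x, φ (z * V j p x) ∂(iid ν) ≤
      (∑ j ∈ Finset.Ico (p / n0) J, ω (j - p / n0) * φ (z * eT Vb (TT n0 j) p)) +
      ∑ i ∈ Finset.range (L - p), ∑ D ∈ Finset.Icc 1 (L - 1 - p - i),
        ∑ j ∈ Finset.Ico (p / n0) J, ω (j - p / n0) * ∫⁻ x, (∫⁻ y,
          φ ((z * (Vb i * g D * ex 0 ((D - 1) * k) x)) * V j (p + i + D) y) ∂(iid ν))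
            ∂(iid ν) := by
    refine (Finset.sum_le_sum fun j hj' => mul_le_mul' le_rfl (hj j hj')).trans (le_of_eq ?_)
    simp only [mul_add, Finset.sum_add_distrib, Finset.mul_sum]
    congr 1
    rw [Finset.sum_comm]
    refine Finset.sum_congr rfl fun i _ => ?_
    rw [Finset.sum_comm]
  refine h1.trans ?_
  -- the ends
  have h2 : ∑ j ∈ Finset.Ico (p / n0) J, ω (j - p / n0) * φ (z * eT Vb (TT n0 j) p) ≤
      z ^ θ * ((u z + e1) * Es) := by
    calc ∑ j ∈ Finset.Ico (p / n0) J, ω (j - p / n0) * φ (z * eT Vb (TT n0 j) p)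
        ≤ ∑ j ∈ Finset.Ico (p / n0) J,
          z ^ θ * ((u z + e1) * (ω (j - p / n0) * eT Vb (TT n0 j) p ^ θ)) := by
          refine Finset.sum_le_sum fun j hj' => ?_
          have h3 := hB.hφ z (eT Vb (TT n0 j) p) hz (hB.hT p j (Finset.mem_Ico.1 hj').2)
          rw [ENNReal.mul_rpow_of_nonneg _ _ hB.θ0.le] at h3
          refine (mul_le_mul' le_rfl h3).trans (le_of_eq ?_)
          ring
      _ = z ^ θ * ((u z + e1) *
          ∑ j ∈ Finset.Ico (p / n0) J, ω (j - p / n0) * eT Vb (TT n0 j) p ^ θ) := by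
          rw [Finset.mul_sum, Finset.mul_sum]
      _ ≤ _ := mul_le_mul' le_rfl (mul_le_mul' le_rfl (hB.hE p))
  -- the excursions
  have h3 : ∀ i ∈ Finset.range (L - p), ∀ D ∈ Finset.Icc 1 (L - 1 - p - i),
      ∑ j ∈ Finset.Ico (p / n0) J, ω (j - p / n0) * ∫⁻ x, (∫⁻ y,
          φ ((z * (Vb i * g D * ex 0 ((D - 1) * k) x)) * V j (p + i + D) y) ∂(iid ν))
            ∂(iid ν) ≤
      z ^ θ * (ω ((i + D) / n0 + 1) * ((Vb i * g D) ^ θ *
          ∫⁻ x, ex 0 ((D - 1) * k) x ^ θ ∂(iid ν)) * (u z * v + w) +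
        ω ((i + D) / n0 + 1) * ((Vb i * g D) ^ θ *
          ∫⁻ x, ex 0 ((D - 1) * k) x ^ θ * up (ex 0 ((D - 1) * k) x) ∂(iid ν)) * v) := by
    intro i hi D hD
    rw [Finset.mem_range] at hi
    rw [Finset.mem_Icc] at hD
    have hdiv : (p + i + D) / n0 - p / n0 ≤ (i + D) / n0 + 1 := by
      have h4 : (p + (i + D)) / n0 = p / n0 + (i + D) / n0 +
          if n0 ≤ p % n0 + (i + D) % n0 then 1 else 0 := Nat.add_div hn0
      have h5 : ∀ a b c : ℕ, c ≤ 1 → a + b + c - a ≤ b + 1 := by omega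
      rw [add_assoc, h4]
      refine h5 _ _ _ ?_
      split_ifs
      · exact le_rfl
      · exact Nat.zero_le _
    have hc := comb ν hB hmeas (p0 := p / n0) (p' := p + i + D)
      (Nat.div_le_div_right (by omega)) (IH (p + i + D) (by omega) (by omega))
      (m := Vb i * g D) (ENNReal.mul_ne_top (hB.Vf i) (hB.gf D)) (hB.ωm hdiv)
      ((D - 1) * k) hz (uz := u z) (fun y hy => hB.hu z i D y hz hy)
    refine hc.trans (le_of_eq ?_)
    ring
  have h4 : ∑ i ∈ Finset.range (L - p), ∑ D ∈ Finset.Icc 1 (L - 1 - p - i),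
        ∑ j ∈ Finset.Ico (p / n0) J, ω (j - p / n0) * ∫⁻ x, (∫⁻ y,
          φ ((z * (Vb i * g D * ex 0 ((D - 1) * k) x)) * V j (p + i + D) y) ∂(iid ν))
            ∂(iid ν) ≤ z ^ θ * (qq * (u z * v + w) + qu * v) := by
    refine (Finset.sum_le_sum fun i hi => Finset.sum_le_sum fun D hD => h3 i hi D hD).trans ?_
    simp only [← Finset.mul_sum]
    refine mul_le_mul' le_rfl ?_
    simp only [Finset.sum_add_distrib, ← Finset.sum_mul]
    refine add_le_add (mul_le_mul' ?_ le_rfl) (mul_le_mul' ?_ le_rfl)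
    · refine (dsum L p _).trans ?_
      rw [hL]
      exact hB.hq
    · refine (dsum L p _).trans ?_
      rw [hL]
      exact hB.hqu
  refine (add_le_add h2 h4).trans ?_
  rw [← mul_add]
  refine mul_le_mul' le_rfl ?_
  calc (u z + e1) * Es + (qq * (u z * v + w) + qu * v)
      = u z * (Es + qq * v) + (e1 * Es + qq * w + qu * v) := by ring
    _ ≤ u z * v + w := add_le_add (mul_le_mul' le_rfl hB.hv) hB.hw

end Pool.Agent.H40.CE
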